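import Mathlib
import Pool.Agent.helper12.OB.SpecA

/-!
# Project ob (MP_baa4d7_al), module FRB: the number of `p`-elements is divisible by the `p`-part of the order
-/

set_option autoImplicit false

namespace Pool.Agent.OB

open Pool.Agent.helper58.DC Pool.Agent.DI Pool.Agent.GR

/-- the number of the `p`-elements of the centraliser of `v` -/
private noncomputable def FRB_c {K : Type} [Group K] (p : ℕ) (v : K) : ℕ :=
  Nat.card {y : ↥(Subgroup.centralizer ({v} : Set K)) // PEl p y}

private lemma FRB_c_eq {K : Type} [Group K] (p : ℕ) (v : K) :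
    FRB_c p v = Nat.card {y : K // v * y = y * v ∧ PEl p y} := by
  unfold FRB_c
  refine Nat.card_congr ⟨fun y => ⟨y.1.1, ?_, ?_⟩, fun y => ⟨⟨y.1, ?_⟩, ?_⟩, fun _ => rfl, fun _ => rfl⟩
  · exact (Subgroup.mem_centralizer_singleton_iff.1 y.1.2).symm
  · obtain ⟨k, hk⟩ := y.2
    refine ⟨k, ?_⟩
    have := congrArg Subtype.val hk
    simpa using this
  · exact Subgroup.mem_centralizer_singleton_iff.2 y.2.1.symm
  · obtain ⟨k, hk⟩ := y.2.2
    exact ⟨k, Subtype.ext (by simpa using hk)⟩

private lemma FRB_count (hPPT : Pool.Agent.GR.PPT_stmt) (p : ℕ) (hp : p.Prime) (K : Type) [Group K] [Finite K] :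
    (Nat.card K : ℂ) = ∑ᶠ v : {v : K // PReg p v}, (FRB_c p v.1 : ℂ) := by
  classical
  have : Fintype K := Fintype.ofFinite K
  have h := hPPT p hp K ⊤ (fun _ => 1)
  have h1 : ∑ᶠ g ∈ ((⊤ : Subgroup K) : Set K), (1 : ℂ) = (Nat.card K : ℂ) := by
    rw [Subgroup.coe_top, finsum_mem_univ, finsum_eq_sum_of_fintype]
    simp
  rw [← h1, h, finsum_mem_def, finsum_eq_sum_of_fintype]
  have h2 : ∀ y : K, ({y : K | y ∈ (⊤ : Subgroup K) ∧ PEl p y}).indicator
      (fun y => ∑ᶠ v ∈ {v : K | v ∈ Cz ⊤ y ∧ PReg p v}, (1 : ℂ)) y =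
      ∑ v : K, if PReg p v ∧ (v * y = y * v ∧ PEl p y) then (1 : ℂ) else 0 := by
    intro y
    rw [Set.indicator_apply]
    split_ifs with h3
    · rw [finsum_mem_def, finsum_eq_sum_of_fintype]
      refine Finset.sum_congr rfl fun v _ => ?_
      rw [Set.indicator_apply]
      refine if_congr ?_ rfl rfl
      constructor
      · rintro ⟨h4, h5⟩
        exact ⟨h5, Subgroup.mem_centralizer_singleton_iff.1 h4.2, h3.2⟩
      · rintro ⟨h5, h6, _⟩
        exact ⟨⟨Subgroup.mem_top _, Subgroup.mem_centralizer_singleton_iff.2 h6⟩, h5⟩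
    · symm
      refine Finset.sum_eq_zero fun v _ => if_neg ?_
      rintro ⟨_, _, h5⟩
      exact h3 ⟨Subgroup.mem_top _, h5⟩
  rw [Finset.sum_congr rfl fun y _ => h2 y, Finset.sum_comm]
  rw [finsum_eq_sum_of_fintype]
  have h6 : ∀ v : K, (∑ y : K, if PReg p v ∧ (v * y = y * v ∧ PEl p y) then (1 : ℂ) else 0) =
      if PReg p v then (FRB_c p v : ℂ) else 0 := by
    intro v
    split_ifs with h7
    · rw [FRB_c_eq, Nat.card_eq_fintype_card, Fintype.card_subtype, Finset.card_filter]
      push_cast
      refine Finset.sum_congr rfl fun y _ => ?_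
      simp [h7]
    · refine Finset.sum_eq_zero fun y _ => if_neg ?_
      exact fun h => h7 h.1
  rw [Finset.sum_congr rfl fun v _ => h6 v, ← Finset.sum_filter]
  exact (Finset.sum_subtype _ (fun x => by simp) _)

/-- the central `p`-regular elements -/
private def FRB_Z {K : Type} [Group K] [Finite K] (p : ℕ) (hp : p.Prime) : Subgroup K where
  carrier := {v | v ∈ Subgroup.center K ∧ PReg p v}
  mul_mem' := by
    rintro a b ⟨ha, ha'⟩ ⟨hb, hb'⟩
    refine ⟨Subgroup.mul_mem _ ha hb, fun h => ?_⟩
    have h1 : Commute a b := (Subgroup.mem_center_iff.1 hb a)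
    have h2 := h.trans h1.orderOf_mul_dvd_mul_orderOf
    rcases (hp.dvd_mul).1 h2 with h3 | h3
    · exact ha' h3
    · exact hb' h3
  one_mem' := by
    refine ⟨Subgroup.one_mem _, fun h => ?_⟩
    rw [orderOf_one] at h
    exact hp.one_lt.ne' (Nat.dvd_one.1 h)
  inv_mem' := by
    rintro a ⟨ha, ha'⟩
    refine ⟨Subgroup.inv_mem _ ha, fun h => ha' ?_⟩
    rwa [orderOf_inv] at h

private lemma FRB_Z_card {K : Type} [Group K] [Finite K] (p : ℕ) (hp : p.Prime) :
    ¬ p ∣ Nat.card (FRB_Z (K := K) p hp) := by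
  intro h
  have := Fact.mk hp
  obtain ⟨x, hx⟩ := exists_prime_orderOf_dvd_card' p h
  have h1 : orderOf (x : K) = p := by rw [Subgroup.orderOf_coe, hx]
  have h2 := x.2.2
  apply h2
  rw [h1]

private lemma FRB_main (hPPT : Pool.Agent.GR.PPT_stmt) (hODV : ODV_stmt) (p : ℕ) (hp : p.Prime) :
    ∀ (m : ℕ) (K : Type) [Group K] [Finite K], Nat.card K = m →
      pp p K ∣ Nat.card {x : K // PEl p x} := by
  intro m
  induction m using Nat.strong_induction_on with
  | _ m ih =>
    intro K _ _ hK
    classical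
    have : Fintype K := Fintype.ofFinite K
    have hcount := FRB_count hPPT p hp K
    -- the non central elements
    let X : Type := {v : K // PReg p v ∧ v ∉ Subgroup.center K}
    let a0 : K → Equiv.Perm X := fun g => 
      { toFun := fun v => ⟨g * v.1 * g⁻¹, by
          refine ⟨?_, fun h => v.2.2 ?_⟩
          · have h1 := v.2.1
            unfold PReg at h1 ⊢
            rwa [show orderOf (g * v.1 * g⁻¹) = orderOf v.1 from by
              have := (MulAut.conj g).toMonoidHom
              exact MulEquiv.orderOf_eq (MulAut.conj g) v.1]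
          · have h1 := (Subgroup.normal_of_characteristic (Subgroup.center K)).conj_mem _ h g⁻¹
            have h2 : g⁻¹ * (g * v.1 * g⁻¹) * g⁻¹⁻¹ = v.1 := by group
            rwa [h2] at h1⟩
        invFun := fun v => ⟨g⁻¹ * v.1 * g, by
          refine ⟨?_, fun h => v.2.2 ?_⟩
          · have h1 := v.2.1
            unfold PReg at h1 ⊢
            rwa [show orderOf (g⁻¹ * v.1 * g) = orderOf v.1 from by
              have := MulEquiv.orderOf_eq (MulAut.conj g⁻¹) v.1
              rwa [MulAut.conj_apply, inv_inv] at this]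
          · have h1 := (Subgroup.normal_of_characteristic (Subgroup.center K)).conj_mem _ h g
            have h2 : g * (g⁻¹ * v.1 * g) * g⁻¹ = v.1 := by group
            rwa [h2] at h1⟩
        left_inv := fun v => Subtype.ext (by show g⁻¹ * (g * v.1 * g⁻¹) * g = v.1; group)
        right_inv := fun v => Subtype.ext (by show g * (g⁻¹ * v.1 * g) * g⁻¹ = v.1; group) }
    let a : K →* Equiv.Perm X :=
      { toFun := a0
        map_one' := Equiv.ext fun v => Subtype.ext (by show 1 * v.1 * 1⁻¹ = v.1; group)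
        map_mul' := fun g h => Equiv.ext fun v => Subtype.ext (by
          show (g * h) * v.1 * (g * h)⁻¹ = g * (h * v.1 * h⁻¹) * g⁻¹
          group) }
    have ha : ∀ (g : K) (v : X), (a g v).1 = g * v.1 * g⁻¹ := fun _ _ => rfl
    -- `c` is invariant
    have hinv : ∀ (g v : K), FRB_c p (g * v * g⁻¹) = FRB_c p v := by
      intro g v
      rw [FRB_c_eq, FRB_c_eq]
      refine Nat.card_congr ⟨fun y => ⟨g⁻¹ * y.1 * g, ?_, ?_⟩, fun y => ⟨g * y.1 * g⁻¹, ?_, ?_⟩,
        fun y => Subtype.ext (by show g * (g⁻¹ * y.1 * g) * g⁻¹ = y.1; group),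
        fun y => Subtype.ext (by show g⁻¹ * (g * y.1 * g⁻¹) * g = y.1; group)⟩
      · have h := y.2.1
        calc v * (g⁻¹ * y.1 * g) = g⁻¹ * ((g * v * g⁻¹) * y.1) * g := by group
          _ = g⁻¹ * (y.1 * (g * v * g⁻¹)) * g := by rw [h]
          _ = g⁻¹ * y.1 * g * v := by group
      · obtain ⟨k, hk⟩ := y.2.2
        refine ⟨k, ?_⟩
        have : (g⁻¹ * y.1 * g) ^ p ^ k = g⁻¹ * y.1 ^ p ^ k * g := by
          have := conj_pow (i := p ^ k) (a := g⁻¹) (b := y.1)
          rwa [inv_inv] at this
        rw [this, hk]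
        group
      · have h := y.2.1
        calc (g * v * g⁻¹) * (g * y.1 * g⁻¹) = g * (v * y.1) * g⁻¹ := by group
          _ = g * (y.1 * v) * g⁻¹ := by rw [h]
          _ = g * y.1 * g⁻¹ * (g * v * g⁻¹) := by group
      · obtain ⟨k, hk⟩ := y.2.2
        refine ⟨k, ?_⟩
        rw [conj_pow, hk]
        group
    let I : AddSubgroup ℂ := (Int.castAddHom ℂ).range
    obtain ⟨w, ⟨w', hw'⟩, hw⟩ := hODV p hp K X a I (fun v => (FRB_c p v.1 : ℂ))
      (fun g v => by
        show ((FRB_c p (g * v.1 * g⁻¹) : ℕ) : ℂ) = _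
        rw [hinv])
      (fun v => by
        -- the centraliser is a proper subgroup
        have h1 : Nat.card (Subgroup.centralizer ({v.1} : Set K)) < m := by
          rw [← hK]
          have h2 : Nat.card (Subgroup.centralizer ({v.1} : Set K)) ∣ Nat.card K :=
            Subgroup.card_subgroup_dvd_card _
          refine lt_of_le_of_ne (Nat.le_of_dvd Nat.card_pos h2) fun h3 => v.2.2 ?_
          have h4 := Subgroup.eq_top_of_card_eq _ h3
          rw [Subgroup.mem_center_iff]
          intro g
          have h5 : g ∈ Subgroup.centralizer ({v.1} : Set K) := by rw [h4]; exact Subgroup.mem_top _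
          exact Subgroup.mem_centralizer_singleton_iff.1 h5
        have h6 : pp p (Subgroup.centralizer ({v.1} : Set K)) ∣ FRB_c p v.1 :=
          ih _ h1 (Subgroup.centralizer ({v.1} : Set K)) rfl
        obtain ⟨q, hq⟩ := h6
        have h7 : pp p {n : K // a n v = v} = pp p (Subgroup.centralizer ({v.1} : Set K)) := by
          unfold pp
          congr 2
          refine Nat.card_congr (Equiv.subtypeEquivRight fun n => ?_)
          rw [Subtype.ext_iff, ha, Subgroup.mem_centralizer_singleton_iff]
          constructor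
          · intro h
            calc n * v.1 = (n * v.1 * n⁻¹) * n := by group
              _ = v.1 * n := by rw [h]
          · intro h
            rw [h]
            group
        refine ⟨(q : ℂ), ⟨(q : ℤ), by simp⟩, ?_⟩
        rw [h7]
        show ((FRB_c p v.1 : ℕ) : ℂ) = _
        rw [hq]
        push_cast
        ring)
    -- split the sum
    have hsplit : (∑ᶠ v : {v : K // PReg p v}, (FRB_c p v.1 : ℂ)) =
        (Nat.card (FRB_Z (K := K) p hp) : ℂ) * (Nat.card {x : K // PEl p x} : ℂ) +
          ∑ᶠ v : X, (FRB_c p v.1 : ℂ) := by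
      rw [finsum_eq_sum_of_fintype, finsum_eq_sum_of_fintype]
      have e1 : ∑ v : {v : K // PReg p v}, (FRB_c p v.1 : ℂ) =
          ∑ v ∈ Finset.univ.filter (fun v : K => PReg p v), (FRB_c p v : ℂ) :=
        (Finset.sum_subtype (Finset.univ.filter (fun v : K => PReg p v)) (fun x => by simp)
          (fun v => (FRB_c p v : ℂ))).symm
      have e2 : ∑ v : X, (FRB_c p v.1 : ℂ) =
          ∑ v ∈ (Finset.univ.filter (fun v : K => PReg p v)).filter
            (fun v => ¬ v ∈ Subgroup.center K), (FRB_c p v : ℂ) :=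
        (Finset.sum_subtype ((Finset.univ.filter (fun v : K => PReg p v)).filter
            (fun v => ¬ v ∈ Subgroup.center K)) (fun x => by simp)
          (fun v => (FRB_c p v : ℂ))).symm
      have e3 : ∑ v ∈ (Finset.univ.filter (fun v : K => PReg p v)).filter
            (fun v => v ∈ Subgroup.center K), (FRB_c p v : ℂ) =
          (Nat.card (FRB_Z (K := K) p hp) : ℂ) * (Nat.card {x : K // PEl p x} : ℂ) := by
        have e4 : ∀ v ∈ (Finset.univ.filter (fun v : K => PReg p v)).filter
            (fun v => v ∈ Subgroup.center K), (FRB_c p v : ℂ) =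
              (Nat.card {x : K // PEl p x} : ℂ) := by
          intro v hv
          rw [FRB_c_eq]
          congr 1
          refine Nat.card_congr (Equiv.subtypeEquivRight fun y => ?_)
          have h1 := Subgroup.mem_center_iff.1 (Finset.mem_filter.1 hv).2 y
          exact ⟨fun h => h.2, fun h => ⟨h1.symm, h⟩⟩
        rw [Finset.sum_congr rfl e4, Finset.sum_const, nsmul_eq_mul]
        congr 2
        have e5 : Nat.card (FRB_Z (K := K) p hp) =
            Fintype.card {v : K // v ∈ Subgroup.center K ∧ PReg p v} := by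
          rw [← Nat.card_eq_fintype_card]
          rfl
        rw [e5, Fintype.card_subtype, Finset.filter_filter]
        congr 1
        ext v
        simp [and_comm]
      rw [e1, e2, ← e3]
      exact (Finset.sum_filter_add_sum_filter_not _ _ _).symm
    rw [hsplit, hw, ← hw'] at hcount
    have hN : pp p K ∣ Nat.card K := by
      unfold pp
      exact pow_padicValNat_dvd
    have hint : ((Nat.card K : ℤ)) = (Nat.card (FRB_Z (K := K) p hp) : ℤ) *
        (Nat.card {x : K // PEl p x} : ℤ) + (pp p K : ℤ) * w' := by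
      have h1 : (Int.castAddHom ℂ) w' = (w' : ℂ) := rfl
      rw [h1] at hcount
      exact_mod_cast hcount
    have hdvd : (pp p K : ℤ) ∣ (Nat.card (FRB_Z (K := K) p hp) : ℤ) *
        (Nat.card {x : K // PEl p x} : ℤ) := by
      have h1 : (pp p K : ℤ) ∣ (Nat.card K : ℤ) := Int.natCast_dvd_natCast.2 hN
      rw [hint] at h1
      exact (dvd_add_left (Dvd.intro _ rfl)).1 h1
    have hdvd' : pp p K ∣ Nat.card (FRB_Z (K := K) p hp) * Nat.card {x : K // PEl p x} := by
      exact_mod_cast hdvd
    refine Nat.Coprime.dvd_of_dvd_mul_left ?_ hdvd'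
    unfold pp
    exact Nat.Coprime.pow_left _ ((Nat.Prime.coprime_iff_not_dvd hp).2 (FRB_Z_card p hp))

theorem FRB (hPPT : Pool.Agent.GR.PPT_stmt) (hODV : ODV_stmt) : FRB_stmt := by
  intro p hp K _ _
  exact FRB_main hPPT hODV p hp _ K rfl

end Pool.Agent.OB
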