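import Mathlib
import Pool.Agent.helper22.OB.SpecU

/-!
# Project ob (MP_baa4d7_al), module FT2: the torus sum of the indicator function of a class and of a block idempotent
-/

set_option autoImplicit false

namespace Pool.Agent.OB

open Pool.Agent.helper58.DC Pool.Agent.DI Pool.Agent.GR

private lemma FT2_ind {G : Type} [Group G] (g x y : G) : ind g (y * x * y⁻¹) = ind g x := by
  classical
  unfold ind
  have h : y * x * y⁻¹ ∈ conjugatesOf g ↔ x ∈ conjugatesOf g := by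
    have h1 : IsConj x (y * x * y⁻¹) := isConj_iff.2 ⟨y, rfl⟩
    exact ⟨fun h => IsConj.trans h h1.symm, fun h => IsConj.trans h h1⟩
  simp only [h]

/-- the number of the characters of `nrm C` in the block -/
private noncomputable def FT2_k {G : Type} [Group G] (M : Ideal (integralClosure ℤ ℂ)) (χ : G → ℂ)
    (C : Finset (Subgroup G)) : ℕ := Nat.card {ψ : G → ℂ // ψ ∈ IrrOn (nrm C) ∧ Induces M ψ χ}

theorem FT2 (hTEX : TEX_stmt) (hCHM : CHM_stmt) (hCNJ : CNJ_stmt) (hCLA : CLA_stmt)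
    (hZET3 : ZET3_stmt) (hZT0 : ZT0_stmt) (hB2 : Pool.Agent.DI.B2_stmt) : FT2_stmt := by
  classical
  intro p M hS G _ _ hO χ hχ g
  have := Fact.mk hS.pr
  have hw : ∀ x y : G, ind g (y * x * y⁻¹) = ind g x := FT2_ind g
  have hζ := (hZT0 p M hS G χ).1
  have hT := hTEX G p hO (ind g) (zeta M χ) hw hζ 0
  let R : Finset (Subgroup G) → ℂ := fun C =>
    (∑ᶠ ψ ∈ IrrOn (nrm C), cc ψ (ind g) * cc ψ (zeta M χ)) - (FT2_k M χ C : ℂ) * omega χ g
  have hfin : {C : Finset (Subgroup G) | IsRadical p C}.Finite := Set.toFinite _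
  -- the number of characters
  have hA : (Nat.card G : ℂ) * (aB p M χ : ℂ) = ∑ C ∈ hfin.toFinset,
      (-1) ^ (C.card + 1) * ((Nat.card (nrm C) : ℂ) * (FT2_k M χ C : ℂ)) := by
    have h1 := hCLA G p (fun C => (FT2_k M χ C : ℤ)) (fun g C _ => by
      show ((FT2_k M χ _ : ℕ) : ℤ) = _
      have h2 := (hCNJ G g C).2 M χ hχ
      unfold FT2_k
      rw [h2])
    rw [finsum_mem_eq_finite_toFinset_sum _ hfin] at h1
    have h3 : (Nat.card G : ℤ) * aB p M χ = _ := h1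
    have h4 := congrArg (Int.cast : ℤ → ℂ) h3
    push_cast at h4
    exact h4
  -- membership in the maximal ideal
  have hRM : ∀ C, IsRadical p C → InM M (R C) := by
    intro C hC
    have hI : (IrrOn (nrm C)).Finite := (hB2 G (nrm C)).1
    have h1 : (FT2_k M χ C : ℂ) * omega χ g =
        ∑ ψ ∈ hI.toFinset, if Induces M ψ χ then omega χ g else 0 := by
      rw [← Finset.sum_filter, Finset.sum_const, nsmul_eq_mul]
      congr 2
      unfold FT2_k
      rw [← Nat.card_eq_finsetCard]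
      refine Nat.card_congr (Equiv.subtypeEquivRight fun ψ => ?_)
      simp
    have h2 : R C = ∑ ψ ∈ hI.toFinset, (cc ψ (ind g) * cc ψ (zeta M χ) -
        if Induces M ψ χ then omega χ g else 0) := by
      show (∑ᶠ ψ ∈ IrrOn (nrm C), cc ψ (ind g) * cc ψ (zeta M χ)) -
        (FT2_k M χ C : ℂ) * omega χ g = _
      rw [h1, finsum_mem_eq_finite_toFinset_sum _ hI, Finset.sum_sub_distrib]
    rw [h2]
    refine InM.sum hS _ fun ψ hψ => ?_
    exact hZET3 p M hS G χ hχ g C hC ψ (hI.mem_toFinset.1 hψ)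
  have hRC : ∀ (g' : G) (C : Finset (Subgroup G)), IsRadical p C →
      R (chainMap (MulAut.conj g') C) = R C := by
    intro g' C _
    have h1 := (hCNJ G g' C).1 (ind g) (zeta M χ) hw hζ (fun a b => a * b)
    have h2 := (hCNJ G g' C).2 M χ hχ
    show (∑ᶠ ψ ∈ IrrOn (nrm (chainMap (MulAut.conj g') C)), cc ψ (ind g) * cc ψ (zeta M χ)) -
        (FT2_k M χ (chainMap (MulAut.conj g') C) : ℂ) * omega χ g =
      (∑ᶠ ψ ∈ IrrOn (nrm C), cc ψ (ind g) * cc ψ (zeta M χ)) - (FT2_k M χ C : ℂ) * omega χ g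
    rw [h1]
    unfold FT2_k
    rw [h2]
  obtain ⟨u, hu, hu2⟩ := hCHM p M hS G R hRM hRC
  refine ⟨u, hu, ?_⟩
  rw [← hu2, hT, hA, sub_zero, finsum_mem_eq_finite_toFinset_sum _ hfin,
    finsum_mem_eq_finite_toFinset_sum _ hfin, Finset.sum_mul, ← Finset.sum_sub_distrib]
  refine Finset.sum_congr rfl fun C _ => ?_
  have h5 : (∑ᶠ ψ ∈ IrrOn (nrm C), cc ψ (ind g) * cc ψ (zeta M χ) * cc ψ (tp p) ^ 0) =
      ∑ᶠ ψ ∈ IrrOn (nrm C), cc ψ (ind g) * cc ψ (zeta M χ) := by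
    simp only [pow_zero, mul_one]
  rw [h5]
  show _ = (-1) ^ (C.card + 1) * ((Nat.card (nrm C) : ℂ) *
    ((∑ᶠ ψ ∈ IrrOn (nrm C), cc ψ (ind g) * cc ψ (zeta M χ)) - (FT2_k M χ C : ℂ) * omega χ g))
  ring

end Pool.Agent.OB
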