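import Pool.Agent.helper22.OB.SpecZ

/-!
# Project ob, row ZETA: the weight function
-/

set_option autoImplicit false

namespace Pool.Agent.OB

open Pool.Agent.helper58.DC Pool.Agent.DI Pool.Agent.GR

theorem ZETA (hZT0 : ZT0_stmt) (hZT1 : ZT1_stmt) (hZT2 : ZT2_stmt) (hZT3 : ZT3_stmt) (hZT5 : ZT5_stmt) (hZT6 : ZT6_stmt) : ZETA_stmt := by
  intro p M hM G _ _ χ hχ e x hx hy
  obtain ⟨k, hk, hkp⟩ := hZT6 p hM.pr G
  obtain ⟨h1, h2, h3⟩ := hZT0 p M hM G χ
  have h4 := hZT1 p M hM G χ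
  have hord : ∀ g : G, orderOf (g ^ k) = orderOf g := by
    intro g
    have h5 : (orderOf g).Coprime k := (hk.coprime_dvd_right (orderOf_dvd_natCard g)).symm
    exact h5.orderOf_pow
  refine ⟨zeta M χ, fun g => zeta M χ (g ^ k), h1, ?_, h2, fun g => h2 _, ?_, ?_, h3, ?_, ?_⟩
  · intro a b
    show zeta M χ ((b * a * b⁻¹) ^ k) = zeta M χ (a ^ k)
    rw [conj_pow]
    exact h1 _ _
  · intro b
    show InM M (zeta M χ (b ^ (e * p)) - zeta M χ ((b ^ e) ^ k))
    by_cases hp : p ∣ orderOf (b ^ e)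
    · have h5 : zeta M χ ((b ^ e) ^ k) = 0 := h4 _ (by rw [hord]; exact hp)
      rw [h5, sub_zero]
      by_contra hcon
      have hn : orderOf b ≠ 0 := (orderOf_pos b).ne'
      have hab : p ^ (orderOf b).factorization p * (orderOf b / p ^ (orderOf b).factorization p) = orderOf b :=
        Nat.ordProj_mul_ordCompl_eq_self _ p
      have hpm : ¬ p ∣ orderOf b / p ^ (orderOf b).factorization p := Nat.not_dvd_ordCompl hM.pr hn
      obtain ⟨m, hm⟩ : ∃ m, m = orderOf b / p ^ (orderOf b).factorization p := ⟨_, rfl⟩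
      rw [← hm] at hab hpm
      have h6 : (b ^ m) ^ e = 1 := by
        refine hZT2 p M hM G χ hχ e x hx hy (b ^ (e * p)) hcon (b ^ m) ?_ ⟨(orderOf b).factorization p, ?_⟩
        · exact (Commute.refl b).pow_pow _ _
        · rw [← pow_mul, mul_comm, hab]
          exact pow_orderOf_eq_one b
      have h7 : (b ^ e) ^ m = 1 := by
        rw [← pow_mul, mul_comm, pow_mul]
        exact h6
      exact hpm (hp.trans (orderOf_dvd_of_pow_eq_one h7))
    · rw [hkp _ hp, ← pow_mul, sub_self]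
      exact InM.zero hM
  · intro g hg
    exact ⟨h4 g hg, h4 _ (by rw [hord]; exact hg)⟩
  · exact hZT3 p M hM G χ hχ
  · intro H F
    exact hZT5 G k hk H (zeta M χ) F

end Pool.Agent.OB
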